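import Pool.Agent.Helper3.TT.Size

/-!
# Three positive `n`-th powers whose sum is an `n`-th power, `n = 2 ^ m * r`

Let `m ≥ 1`, `r` odd, all maximal prime powers dividing `r` congruent to `1` modulo
`2 ^ (m + 1)`, and `n = 2 ^ m * r ≥ 4`. If `x ^ n + y ^ n + z ^ n = w ^ n` with positive integers
then `w > 2 ^ ((m + 1) * (n - 1))`.
-/

namespace Pool.Agent.Results.MP_b35960_nt.ThreeTermSize

/-- Let `m ≥ 1`, let `r` be odd such that `q ^ v ≡ 1 (mod 2 ^ (m + 1))` for every maximal prime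
power `q ^ v` dividing `r`, and let `n = 2 ^ m * r ≥ 4` (for example `n = 2 ^ m`, `m ≥ 2`). If
`x, y, z, w` are positive integers with `x ^ n + y ^ n + z ^ n = w ^ n`, then
`w > 2 ^ ((m + 1) * (n - 1))`. -/
theorem result (m r : ℕ) (hm : 1 ≤ m) (hr : Odd r)
    (hrq : ∀ q : ℕ, q.Prime → q ∣ r → q ^ padicValNat q r % 2 ^ (m + 1) = 1)
    (hn : 4 ≤ 2 ^ m * r)
    (x y z w : ℕ) (hx : 0 < x) (hy : 0 < y) (hz : 0 < z)
    (h : x ^ (2 ^ m * r) + y ^ (2 ^ m * r) + z ^ (2 ^ m * r) = w ^ (2 ^ m * r)) :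
    2 ^ ((m + 1) * (2 ^ m * r - 1)) < w :=
  Pool.Agent.Helper3.TT.size m r hm hr hrq hn x y z w hx hy hz h

end Pool.Agent.Results.MP_b35960_nt.ThreeTermSize
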